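import Pool.Agent.Helper94_SQS.Stmts
import Pool.Agent.Helper92_Seq.Red

/-!
# SQS, modules JOR, EDGA, EDG from Helper92_Seq
-/

set_option autoImplicit false

namespace Pool.Agent.SQS.H92

open MeasureTheory Filter Topology

theorem jor : JorStmt := by
  intro S _ _ φ
  obtain ⟨φ₁, φ₂, h1, h2, h3⟩ := Pool.Agent.Helper92_Seq.jordan φ
  refine ⟨φ₁, φ₂, ?_, ?_, fun f => ?_⟩
  · exact h1
  · exact h2
  · rw [h3]; rfl

theorem edg : EdgStmt := by
  intro E _ _ g hg
  exact measurable_iff_comap_le.2 (Pool.Agent.Helper92_Seq.edgar g hg)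

theorem edgA : EdgAStmt := by
  intro E _ _ n b hb c
  classical
  let L : E →ₗ[ℝ] (Fin n → ℝ) := LinearMap.pi b
  have hL : LinearMap.range L = ⊤ := by
    by_contra hne
    obtain ⟨f, hf0, hf⟩ := Submodule.exists_le_ker_of_lt_top _ (lt_top_iff_ne_top.2 hne)
    apply hf0
    have h4 : ∑ i, f (Pi.single i 1) • b i = 0 := by
      ext x
      have h2 : f (L x) = 0 := hf ⟨x, rfl⟩
      have h3 : L x = ∑ i, (b i x) • (Pi.single i (1 : ℝ) : Fin n → ℝ) := by
        ext j
        simp [L, Finset.sum_apply, Pi.single_apply]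
      rw [h3, map_sum] at h2
      simp only [map_smul, smul_eq_mul] at h2
      simp only [LinearMap.sum_apply, LinearMap.smul_apply, smul_eq_mul, LinearMap.zero_apply]
      rw [← h2]
      exact Finset.sum_congr rfl fun i _ => mul_comm _ _
    have h6 := Fintype.linearIndependent_iff.1 hb _ h4
    apply LinearMap.pi_ext'
    intro i
    ext
    simpa using h6 i
  obtain ⟨x, hx⟩ : c ∈ LinearMap.range L := by rw [hL]; trivial
  exact ⟨x, fun i => congrFun hx i⟩

end Pool.Agent.SQS.H92
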